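import Pool.Agent.H24Stark.Main

/-!
# The rank one Stark conjecture for ATR fields: the units as limits of sums over primes

Let `K` be an ATR field, `𝔣 ≠ 0` an ideal, `G = Cl⁺(𝔣)` the narrow ray class group, `H` the narrow ray class field,
`e` the number of roots of unity in `H` and `ζ_𝔣(b, s)`, `b ∈ G`, the partial zeta functions.  Stark's conjecture
asks for a unit `u` of `H` with `ζ'_𝔣(b, 0) = -(1/e) log |u^{σ_b}|²` for all `b` (and further properties), where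
`|x| = |ι(x)|` for an embedding `ι : H → ℂ` above the complex embedding of `K`.  The numbers `ζ'_𝔣(b, 0)` are
defined by analytic continuation.  We show that this condition is an explicit statement on prime ideals.  Let
`γ > π/2`, and for a character `χ` of `G` and `X > 1`, with `u = k log N𝔭 / log X` in the exponent,

`W_χ(X) = ∑_{𝔭 ∤ 𝔣} ∑_{k ≥ 1} χ(𝔭)^k / k · e^{iγu} / Γ(1 + u)`,
`E_b(X) = |G|⁻¹ ∑_χ χ(b)⁻¹ exp W_χ(X)`,  `Λ_γ = ∫_0^∞ (e^{-t} - e^{iγt}/Γ(1+t)) dt/t`.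

For every nonzero element `u` of `H`, in particular for every unit:

1. `ζ_𝔣(b, 0) = 0` and `ζ'_𝔣(b, 0) = -(1/e) log |u^{σ_b}|²` for all `b ∈ G` if and only if
   `(log X) E_b(X) → -e^{Λ_γ} (log |u^{σ_b}|²)/e` for `X → ∞`, for all `b`;

2. in this case `exp(-e · e^{-Λ_γ} (log X) E_b(X)) = |u^{σ_b}|² + O(1/log X)`.

3. So there is a unit `u` with the conditions 1, 2 and 3 of Q1 (`OnUnitCircle`, `AbelianRoot` are 2 and 3) if and
   only if there is a unit `u` with 2 and 3 for which the limits are as in 1.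

(`ζ_𝔣(b, 0) = 0` always holds here, because of the complex place of the ground field.)  So condition 1 of Q1
is an explicit statement on the distribution of the prime ideals in the ray classes.  Nothing is assumed on the
zeros of the `L`-functions; of the continuation only the meromorphic continuation of the `ζ_𝔣(b, s)` to the
points of the real interval `[0, 1]` is used.

The law for partial zeta functions is `Pool.Agent.V11288.LZ.partial_main` (see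
`MP_343f43_nt.StarkNumbersByPrimes` for real quadratic fields).
-/

set_option autoImplicit false

namespace Pool.Agent.Results.MP_29cb78_nt.StarkUnitsByPrimes

open Filter Topology Set NumberField IsDedekindDomain

variable {K H : Type} [Field K] [NumberField K] [Field H] [NumberField H] [Algebra K H]
  {G : Type} [CommGroup G]

/-- `𝔞` is nonzero and prime to `𝔣`. -/
def PrimeTo (𝔣 𝔞 : Ideal (𝓞 K)) : Prop :=
  𝔞 ≠ 0 ∧ ∀ v : HeightOneSpectrum (𝓞 K), v.asIdeal ∣ 𝔣 → ¬ v.asIdeal ∣ 𝔞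

/-- `G` is the narrow ray class group modulo `𝔣`, and `cls 𝔞` the class of `𝔞`: it is multiplicative,
surjective, and `cls 𝔞 = cls 𝔟` iff `α𝔞 = β𝔟` for some `α, β ∈ 𝓞_K` prime to `𝔣` with `α ≡ β` modulo `𝔣` and
`σ(α)σ(β) > 0` for all real embeddings `σ`. -/
structure IsRayClass (𝔣 : Ideal (𝓞 K)) (cls : Ideal (𝓞 K) → G) : Prop where
  mul : ∀ 𝔞 𝔟, PrimeTo 𝔣 𝔞 → PrimeTo 𝔣 𝔟 → cls (𝔞 * 𝔟) = cls 𝔞 * cls 𝔟
  surj : ∀ b : G, ∃ 𝔞, PrimeTo 𝔣 𝔞 ∧ cls 𝔞 = b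
  eq_iff : ∀ 𝔞 𝔟, PrimeTo 𝔣 𝔞 → PrimeTo 𝔣 𝔟 → (cls 𝔞 = cls 𝔟 ↔
    ∃ α β : 𝓞 K, PrimeTo 𝔣 (Ideal.span {α}) ∧ PrimeTo 𝔣 (Ideal.span {β}) ∧ α - β ∈ 𝔣 ∧
      (∀ σ : K →+* ℝ, 0 < σ α * σ β) ∧ Ideal.span {α} * 𝔞 = Ideal.span {β} * 𝔟)

/-- `g` is the Frobenius automorphism of a prime `Q` of `H` above `v`: `g(x) ≡ x^(N v)` modulo `Q`. -/
def IsFrobenius (v : HeightOneSpectrum (𝓞 K)) (g : H ≃ₐ[K] H) : Prop :=
  ∃ Q : Ideal (𝓞 H), Q.IsPrime ∧ Q.comap (algebraMap (𝓞 K) (𝓞 H)) = v.asIdeal ∧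
    ∀ x y : 𝓞 H, (y : H) = g (x : H) → y - x ^ Ideal.absNorm v.asIdeal ∈ Q

/-- `H` is the narrow ray class field modulo `𝔣` and `rec` the Artin isomorphism `b ↦ σ_b`: the primes not
dividing `𝔣` are unramified in `H`, and `σ_b` is the Frobenius automorphism for every prime in the class `b`. -/
structure IsRayClassField (𝔣 : Ideal (𝓞 K)) (cls : Ideal (𝓞 K) → G)
    (rec : G ≃* (H ≃ₐ[K] H)) : Prop where
  unramified : ∀ v : HeightOneSpectrum (𝓞 K), ¬ v.asIdeal ∣ 𝔣 →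
    Squarefree (v.asIdeal.map (algebraMap (𝓞 K) (𝓞 H)))
  frobenius : ∀ v : HeightOneSpectrum (𝓞 K), ¬ v.asIdeal ∣ 𝔣 → IsFrobenius v (rec (cls v.asIdeal))

/-- `Z(s) = ζ_𝔣(b, s)`: it is the sum of `N𝔞^{-s}` over the integral ideals `𝔞 ∈ b` for `Re s > 1`, and is
meromorphic at the points of the real interval `[0, 1]`. -/
structure IsPartialZeta (𝔣 : Ideal (𝓞 K)) (cls : Ideal (𝓞 K) → G) (b : G) (Z : ℂ → ℂ) : Prop where
  mero : ∀ x ∈ Icc (0 : ℝ) 1, MeromorphicAt Z (x : ℂ)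
  sum : ∀ s : ℂ, 1 < s.re → Z s =
    ∑' 𝔞 : {𝔞 : Ideal (𝓞 K) // PrimeTo 𝔣 𝔞 ∧ cls 𝔞 = b}, ((Ideal.absNorm 𝔞.1 : ℕ) : ℂ) ^ (-s)

/-- The number `e` of roots of unity in `H`. -/
noncomputable def numRoots (H : Type) [Field H] [NumberField H] : ℕ := Nat.card (Units.torsion H)

/-- The weight `e^{iγu} / Γ(1 + u)`. -/
noncomputable def weight (γ u : ℝ) : ℂ :=
  Complex.exp ((γ * u : ℝ) * Complex.I) / (Real.Gamma (1 + u) : ℂ)

/-- The term of `W_χ(X)` at `(𝔭, k)`. -/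
noncomputable def term (cls : Ideal (𝓞 K) → G) (χ : G →* ℂˣ) (γ X : ℝ)
    (v : HeightOneSpectrum (𝓞 K)) (k : ℕ) : ℂ :=
  ((χ (cls v.asIdeal) : ℂˣ) : ℂ) ^ k / k *
    weight γ (k * Real.log (Ideal.absNorm v.asIdeal) / Real.log X)

/-- `W_χ(X)`, the sum over the primes not dividing `𝔣` and `k ≥ 1` (here `k = x.2 + 1`). -/
noncomputable def W (𝔣 : Ideal (𝓞 K)) (cls : Ideal (𝓞 K) → G) (χ : G →* ℂˣ) (γ X : ℝ) : ℂ :=
  ∑' x : {v : HeightOneSpectrum (𝓞 K) // ¬ v.asIdeal ∣ 𝔣} × ℕ, term cls χ γ X x.1.1 (x.2 + 1)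

/-- `E_b(X) = |G|⁻¹ ∑_χ χ(b⁻¹) exp W_χ(X)`. -/
noncomputable def E (𝔣 : Ideal (𝓞 K)) (cls : Ideal (𝓞 K) → G) (γ X : ℝ) (b : G) : ℂ :=
  (∑ᶠ χ : G →* ℂˣ, ((χ b⁻¹ : ℂˣ) : ℂ) * Complex.exp (W 𝔣 cls χ γ X)) / Nat.card G

/-- `Λ_γ = ∫_0^∞ (e^{-t} - e^{iγt} / Γ(1 + t)) dt / t`. -/
noncomputable def Lam (γ : ℝ) : ℂ := ∫ t in Ioi (0 : ℝ),
  (Complex.exp (-(t : ℂ)) - Complex.exp ((γ * t : ℝ) * Complex.I) * ((Real.Gamma (1 + t))⁻¹ : ℝ)) / t

/-- `Z(0) = 0` and `Z'(0) = z`: `Z(s)/s → z` for `s → 0`. -/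
def HasDerivZero (Z : ℂ → ℂ) (z : ℂ) : Prop := Tendsto (fun s : ℂ => Z s / s) (𝓝[≠] 0) (𝓝 z)

/-- Condition 1 of Q1 for `u`, with the embedding `ι` of `H`: `ζ_𝔣(b, 0) = 0` and
`ζ'_𝔣(b, 0) = -(1/e) log |ι(u^{σ_b})|²` for all `b`. -/
def StarkIdentities (rec : G ≃* (H ≃ₐ[K] H)) (Z : G → ℂ → ℂ) (ι : H →+* ℂ) (u : H) : Prop :=
  ∀ b : G, ∃ z : ℝ, HasDerivZero (Z b) z ∧
    z = -(1 / (numRoots H : ℝ)) * Real.log (‖ι (rec b u)‖ ^ 2)

/-- `(log X) E_b(X) → -e^{Λ_γ} (log |ι(u^{σ_b})|²)/e` for `X → ∞`, for all `b`. -/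
def PrimeLimits (𝔣 : Ideal (𝓞 K)) (cls : Ideal (𝓞 K) → G) (rec : G ≃* (H ≃ₐ[K] H)) (ι : H →+* ℂ)
    (γ : ℝ) (u : H) : Prop :=
  ∀ b, Tendsto (fun X : ℝ => Real.log X * E 𝔣 cls γ X b) atTop
    (𝓝 (-(Complex.exp (Lam γ) * (Real.log (‖ι (rec b u)‖ ^ 2) / numRoots H))))

/-- Condition 2 of Q1: every complex embedding of `H` above a real embedding of `K` maps `u` to the unit
circle. -/
def OnUnitCircle (K : Type) [Field K] [NumberField K] {H : Type} [Field H] [NumberField H]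
    [Algebra K H] (u : H) : Prop :=
  ∀ τ : H →+* ℂ, (∀ x : K, (τ (algebraMap K H x)).im = 0) → ‖τ u‖ = 1

/-- Condition 3 of Q1: `H(u^{1/e})` is an abelian extension of `K`. -/
def AbelianRoot (K : Type) [Field K] [NumberField K] {H : Type} [Field H] [NumberField H]
    [Algebra K H] (u : H) : Prop :=
  ∀ y : AlgebraicClosure H, y ^ numRoots H = algebraMap H (AlgebraicClosure H) u →
    IsGalois K (IntermediateField.adjoin H {y}) ∧
      ∀ g h : (IntermediateField.adjoin H {y}) ≃ₐ[K] (IntermediateField.adjoin H {y}), g * h = h * g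

theorem main_aux [IsGalois K H] (𝔣 : Ideal (𝓞 K)) (cls : Ideal (𝓞 K) → G)
    (hc : IsRayClass 𝔣 cls) (rec : G ≃* (H ≃ₐ[K] H))
    (Z : G → ℂ → ℂ) (hZ : ∀ b, IsPartialZeta 𝔣 cls b (Z b)) (ι : H →+* ℂ)
    (γ : ℝ) (hγ : Real.pi / 2 < γ) (u : H) (hu : u ≠ 0) :
    (StarkIdentities rec Z ι u ↔ PrimeLimits 𝔣 cls rec ι γ u) ∧
    (StarkIdentities rec Z ι u →
      ∀ b, (fun X : ℝ => Complex.exp (-(numRoots H * Complex.exp (-Lam γ) *
        (Real.log X * E 𝔣 cls γ X b))) - (‖ι (rec b u)‖ ^ 2 : ℝ)) =O[atTop]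
          (fun X : ℝ => 1 / Real.log X)) := by
  have hfin : Finite (H ≃ₐ[K] H) := inferInstance
  have : Finite G := Finite.of_equiv _ rec.symm.toEquiv
  have hW : 0 < numRoots H := by
    unfold numRoots
    exact Nat.card_pos
  have hW' : ((numRoots H : ℕ) : ℝ) ≠ 0 := by exact_mod_cast hW.ne'
  have hpos : ∀ b, 0 < ‖ι (rec b u)‖ ^ 2 := by
    intro b
    have h1 : ι (rec b u) ≠ 0 := by
      rw [map_ne_zero_iff ι ι.injective]
      simpa using hu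
    positivity
  have h0 : StarkIdentities rec Z ι u ↔ ∀ b, Pool.Agent.H24Stark.DerivZero (Z b)
      (-((Real.log (‖ι (rec b u)‖ ^ 2) : ℂ) / ((numRoots H : ℕ) : ℝ))) := by
    refine forall_congr' fun b => ?_
    have h1 : (-((Real.log (‖ι (rec b u)‖ ^ 2) : ℂ) / ((numRoots H : ℕ) : ℝ))) =
        ((-(1 / (numRoots H : ℝ)) * Real.log (‖ι (rec b u)‖ ^ 2) : ℝ) : ℂ) := by
      rw [Complex.ofReal_mul, Complex.ofReal_neg, Complex.ofReal_div, Complex.ofReal_one]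
      ring
    constructor
    · rintro ⟨z, hz, hz2⟩
      rw [h1, ← hz2]
      exact hz
    · intro h
      refine ⟨_, ?_, rfl⟩
      rw [h1] at h
      exact h
  obtain ⟨h1, h2⟩ := Pool.Agent.H24Stark.main (S := {v : HeightOneSpectrum (𝓞 K) | v.asIdeal ∣ 𝔣})
    (cls := cls) (Z := Z) (fun 𝔞 𝔟 h h' => hc.mul 𝔞 𝔟 h h') (fun g x hx => (hZ g).mero x hx)
    (fun g s hs => (hZ g).sum s hs) hγ ((numRoots H : ℕ) : ℝ) hW'
    (fun b => Real.log (‖ι (rec b u)‖ ^ 2))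
  have hE : ∀ X b, Pool.Agent.H24Stark.E {v : HeightOneSpectrum (𝓞 K) | v.asIdeal ∣ 𝔣} cls γ X b =
      E 𝔣 cls γ X b := fun X b => rfl
  have hL : Pool.Agent.H24Stark.Lam γ = Lam γ := rfl
  simp only [hE, hL] at h1 h2
  refine ⟨h0.trans (h1.trans (forall_congr' fun b => ?_)), fun h b => ?_⟩
  · rw [Complex.ofReal_natCast]
  · have h3 := h2 (h0.1 h) b
    refine (h3.congr_left fun X => ?_)
    rw [Real.exp_log (hpos b), Complex.ofReal_natCast]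
    congr 2
    ring

/-- **Stark units of ATR fields as limits of sums over primes.** -/
theorem result [IsGalois K H] (_ : InfinitePlace.nrComplexPlaces K = 1) (_ : 1 ≤ InfinitePlace.nrRealPlaces K)
    (𝔣 : Ideal (𝓞 K)) (_ : 𝔣 ≠ ⊥) (_ : InfinitePlace.nrRealPlaces K = 1 → 𝔣 ≠ ⊤) (cls : Ideal (𝓞 K) → G)
    (hc : IsRayClass 𝔣 cls) (rec : G ≃* (H ≃ₐ[K] H)) (_ : IsRayClassField 𝔣 cls rec)
    (Z : G → ℂ → ℂ) (hZ : ∀ b, IsPartialZeta 𝔣 cls b (Z b)) (ι : H →+* ℂ)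
    (_ : ∃ x : K, (ι (algebraMap K H x)).im ≠ 0) (γ : ℝ) (hγ : Real.pi / 2 < γ) :
    (∀ u : H, u ≠ 0 → (StarkIdentities rec Z ι u ↔ PrimeLimits 𝔣 cls rec ι γ u)) ∧
    (∀ u : H, u ≠ 0 → StarkIdentities rec Z ι u →
      ∀ b, (fun X : ℝ => Complex.exp (-(numRoots H * Complex.exp (-Lam γ) *
        (Real.log X * E 𝔣 cls γ X b))) - (‖ι (rec b u)‖ ^ 2 : ℝ)) =O[atTop]
          (fun X : ℝ => 1 / Real.log X)) ∧
    ((∃ u : (𝓞 H)ˣ, StarkIdentities rec Z ι ((u : 𝓞 H) : H) ∧ OnUnitCircle K ((u : 𝓞 H) : H) ∧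
        AbelianRoot K ((u : 𝓞 H) : H)) ↔
      ∃ u : (𝓞 H)ˣ, PrimeLimits 𝔣 cls rec ι γ ((u : 𝓞 H) : H) ∧
        OnUnitCircle K ((u : 𝓞 H) : H) ∧ AbelianRoot K ((u : 𝓞 H) : H)) := by
  have main : ∀ u : H, u ≠ 0 → (StarkIdentities rec Z ι u ↔ PrimeLimits 𝔣 cls rec ι γ u) ∧
      (StarkIdentities rec Z ι u →
        ∀ b, (fun X : ℝ => Complex.exp (-(numRoots H * Complex.exp (-Lam γ) *
          (Real.log X * E 𝔣 cls γ X b))) - (‖ι (rec b u)‖ ^ 2 : ℝ)) =O[atTop]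
            (fun X : ℝ => 1 / Real.log X)) := by
    intro u hu
    exact main_aux 𝔣 cls hc rec Z hZ ι γ hγ u hu
  refine ⟨fun u hu => (main u hu).1, fun u hu => (main u hu).2, ?_⟩
  refine exists_congr fun u => and_congr_left fun _ => (main _ ?_).1
  simp

end Pool.Agent.Results.MP_29cb78_nt.StarkUnitsByPrimes
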